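import Pool.Agent.helper62.MS.SpecA
import Pool.Agent.helper58.RS.GFD
import Pool.Agent.helper62.RS.All

/-!
# MP_07c750, project MS, row SCH (helper79): Schur's test
-/

set_option autoImplicit false

open scoped MatrixGroups ContDiff Topology UpperHalfPlane ComplexConjugate ENNReal Pointwise
open UpperHalfPlane MeasureTheory Filter Set

namespace Pool.Agent.MS

open Pool.Agent.RS

/-- Cauchy-Schwarz -/
theorem SCH_cs {X : Type} [MeasurableSpace X] (μ : Measure X) {a b : X → ℝ≥0∞} {A : Set X} (hA : MeasurableSet A)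
    (ha : Measurable a) (hb : Measurable b) (hs : ∀ x, a x ≠ 0 → x ∈ A) :
    (∫⁻ x, a x * b x ∂μ) ^ 2 ≤ (∫⁻ x in A, b x ∂μ) * ∫⁻ x, a x ^ 2 * b x ∂μ := by
  have hI : Measurable (A.indicator (1 : X → ℝ≥0∞)) := measurable_one.indicator hA
  have h1 : ∫⁻ x, a x * b x ∂μ = ∫⁻ x, (A.indicator (1 : X → ℝ≥0∞) * a) x ∂(μ.withDensity b) := by
    rw [lintegral_withDensity_eq_lintegral_mul μ hb (hI.mul ha)]
    refine lintegral_congr fun x => ?_
    by_cases hx : x ∈ A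
    · simp [hx, mul_comm]
    · have h0 : a x = 0 := by
        by_contra h
        exact hx (hs x h)
      simp [hx, h0]
  have h2 := ENNReal.lintegral_mul_le_Lp_mul_Lq (μ.withDensity b) Real.HolderConjugate.two_two
    hI.aemeasurable ha.aemeasurable
  rw [← h1] at h2
  have h3 : ∫⁻ x, (A.indicator (1 : X → ℝ≥0∞) x) ^ (2 : ℝ) ∂(μ.withDensity b) = ∫⁻ x in A, b x ∂μ := by
    have e : ∀ x, (A.indicator (1 : X → ℝ≥0∞) x) ^ (2 : ℝ) = A.indicator (1 : X → ℝ≥0∞) x := by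
      intro x
      by_cases hx : x ∈ A
      · simp [hx]
      · simp [hx]
    simp only [e]
    rw [lintegral_indicator_one hA, withDensity_apply b hA]
  have h4 : ∫⁻ x, a x ^ (2 : ℝ) ∂(μ.withDensity b) = ∫⁻ x, a x ^ 2 * b x ∂μ := by
    have e : ∀ x, a x ^ (2 : ℝ) = a x ^ 2 := fun x => ENNReal.rpow_two _
    simp only [e]
    rw [lintegral_withDensity_eq_lintegral_mul μ hb (ha.pow_const 2)]
    exact lintegral_congr fun x => mul_comm _ _
  rw [h3, h4] at h2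
  calc (∫⁻ x, a x * b x ∂μ) ^ 2 ≤ ((∫⁻ x in A, b x ∂μ) ^ (1 / 2 : ℝ) * (∫⁻ x, a x ^ 2 * b x ∂μ) ^ (1 / 2 : ℝ)) ^ 2 := by
        gcongr
    _ = (∫⁻ x in A, b x ∂μ) * ∫⁻ x, a x ^ 2 * b x ∂μ := by
        rw [mul_pow, ← ENNReal.rpow_natCast, ← ENNReal.rpow_natCast, ← ENNReal.rpow_mul, ← ENNReal.rpow_mul]
        norm_num

/-- right translations, for nonnegative functions -/
theorem SCH_right (hGLC : GLC_stmt) (hGMG : GMG_stmt) (hGLI : GLI_stmt) (hGRI : GRI_stmt)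
    (Γ : Subgroup SL(2, ℝ)) (F : Set ℍ) (hΓ : QU.SurfaceGroup Γ) (hF : QU.NiceDom Γ F)
    (u : SL(2, ℝ) → ℝ≥0∞) (h : SL(2, ℝ)) (hu : ∀ (γ : Γ) g, u ((γ : SL(2, ℝ)) * g) = u g) :
    ∫⁻ g in dG F, u (g * h) ∂mG = ∫⁻ g in dG F, u g ∂mG := by
  have := hGLC.2.1
  have := GFD_inv hGLC hGLI Γ
  have : Countable Γ := (QU.A_DOB Γ F hΓ hF).1
  have hmp : MeasurePreserving (fun g : SL(2, ℝ) => g * h) mG mG :=
    ⟨(continuous_mul_const h).measurable, hGRI h⟩
  have hemb : MeasurableEmbedding (fun g : SL(2, ℝ) => g * h) :=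
    (Homeomorph.mulRight h).measurableEmbedding
  have e1 : dG F = (fun g : SL(2, ℝ) => g * h) ⁻¹' ((fun g : SL(2, ℝ) => g * h⁻¹) ⁻¹' dG F) := by
    ext g
    simp only [mem_preimage, mul_inv_cancel_right]
  have e2 : ∫⁻ g in dG F, u (g * h) ∂mG = ∫⁻ g in (fun g : SL(2, ℝ) => g * h⁻¹) ⁻¹' dG F, u g ∂mG := by
    have := hmp.setLIntegral_comp_preimage_emb hemb u ((fun g : SL(2, ℝ) => g * h⁻¹) ⁻¹' dG F)
    rw [← e1] at this
    exact this
  rw [e2]
  have f1 := GFD_fund hGLC hGMG Γ F hF h⁻¹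
  have f2 := GFD_fund hGLC hGMG Γ F hF 1
  have e3 : (fun g : SL(2, ℝ) => g * 1) ⁻¹' dG F = dG F := by
    ext g
    simp only [mem_preimage, mul_one]
  rw [e3] at f2
  exact f1.setLIntegral_eq f2 u hu

/-- compactness of the set of the `k` with `k⁻¹ K' ∩ K` not empty -/
theorem SCH_cpt (hGLC : GLC_stmt) (K K' : Set ℍ) (hK : IsCompact K) (hK' : IsCompact K') :
    ∃ C : Set SL(2, ℝ), IsCompact C ∧ ∀ (k : SL(2, ℝ)) (z : ℍ), z ∈ K' → k⁻¹ • z ∈ K → k ∈ C := by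
  have h1 : IsCompact {g : SL(2, ℝ) | g • I ∈ K} := hGLC.2.2.1 K hK
  have h2 : IsCompact (toSL2R '' K') := hK'.image continuous_toSL2R
  refine ⟨(toSL2R '' K') * {g : SL(2, ℝ) | g • I ∈ K}⁻¹, h2.mul h1.inv, fun k z hz hkz => ?_⟩
  refine Set.mem_mul.2 ⟨toSL2R z, ⟨z, hz, rfl⟩, (toSL2R z)⁻¹ * k, ?_, by group⟩
  rw [Set.mem_inv]
  change ((toSL2R z)⁻¹ * k)⁻¹ • I ∈ K
  rw [mul_inv_rev, inv_inv, mul_smul, toSL2R_smul_I]
  exact hkz

theorem SCH_fc (hGMG : GMG_stmt) : IsFiniteMeasureOnCompacts mG := ⟨fun K hK => hGMG.2.1 K hK⟩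

theorem SCH_smul : Continuous fun p : SL(2, ℝ) × ℍ => p.1⁻¹ • p.2 :=
  continuous_smul.comp ((continuous_fst.inv).prodMk continuous_snd)

theorem SCH_c1 (f : ℍ → ℂ) (hf : Continuous f) (z : ℍ) : Continuous (fun g : SL(2, ℝ) => f (g⁻¹ • z)) := by
  have hk : Continuous (fun g : SL(2, ℝ) => g⁻¹ • z) := continuous_inv.smul continuous_const
  exact hf.comp hk

/-- integrability of `g ↦ f (g⁻¹ z)` -/
theorem SCH_int1 (hGLC : GLC_stmt) (hGMG : GMG_stmt) (f : ℍ → ℂ) (hf : Continuous f) (hfc : HasCompactSupport f) (z : ℍ) :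
    Integrable (fun g : SL(2, ℝ) => f (g⁻¹ • z)) mG := by
  have := SCH_fc hGMG
  obtain ⟨C, hC, hCz⟩ := SCH_cpt hGLC (tsupport f) {z} hfc isCompact_singleton
  have hc := SCH_c1 f hf z
  have hs : HasCompactSupport (fun g : SL(2, ℝ) => f (g⁻¹ • z)) := by
    refine HasCompactSupport.intro hC fun g hg => ?_
    by_contra h
    exact hg (hCz g z (Set.mem_singleton z) (subset_tsupport f h))
  exact hc.integrable_of_hasCompactSupport hs

/-- the synthesis as an integral over the whole group -/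
theorem SCH_unfold (hGLC : GLC_stmt) (hGMG : GMG_stmt) (hGLI : GLI_stmt) (hGPE : GPE_stmt)
    (Γ : Subgroup SL(2, ℝ)) (F : Set ℍ) (hΓ : QU.SurfaceGroup Γ) (hF : QU.NiceDom Γ F)
    (f : ℍ → ℂ) (hf : Continuous f) (hfc : HasCompactSupport f) (v : SL(2, ℝ) → ℂ) (hv : Measurable v) (m : ℝ)
    (hm : ∀ g, ‖v g‖ ≤ m) (hinv : ∀ (γ : Γ) g, v ((γ : SL(2, ℝ)) * g) = v g) (z : ℍ) :
    sy Γ F f v z = ∫ g, v g * f (g⁻¹ • z) ∂mG := by
  have := hGLC.2.1
  have := GFD_inv hGLC hGLI Γ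
  have : Countable Γ := (QU.A_DOB Γ F hΓ hF).1
  have f2 := GFD_fund hGLC hGMG Γ F hF 1
  have e3 : (fun g : SL(2, ℝ) => g * 1) ⁻¹' dG F = dG F := by
    ext g
    simp only [mem_preimage, mul_one]
  rw [e3] at f2
  have hi : Integrable (fun g : SL(2, ℝ) => v g * f (g⁻¹ • z)) mG :=
    (SCH_int1 hGLC hGMG f hf hfc z).bdd_mul hv.aestronglyMeasurable (Filter.Eventually.of_forall hm)
  have hterm : ∀ (γ : Γ) (g : SL(2, ℝ)), v (γ⁻¹ • g) * f ((γ⁻¹ • g)⁻¹ • z) = v g * f (g⁻¹ • ((γ : SL(2, ℝ)) • z)) := by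
    intro γ g
    have a : (γ⁻¹ • g : SL(2, ℝ)) = ((γ⁻¹ : Γ) : SL(2, ℝ)) * g := rfl
    rw [a, hinv, mul_inv_rev, mul_smul]
    simp
  rw [f2.integral_eq_tsum' _ hi]
  have hl := f2.lintegral_eq_tsum' (fun g => ‖v g * f (g⁻¹ • z)‖ₑ)
  simp only [hterm] at hl ⊢
  have hmeas : ∀ γ : Γ, AEStronglyMeasurable (fun g : SL(2, ℝ) => v g * f (g⁻¹ • ((γ : SL(2, ℝ)) • z))) (mG.restrict (dG F)) := by
    intro γ
    exact hv.aestronglyMeasurable.mul (SCH_c1 f hf ((γ : SL(2, ℝ)) • z)).aestronglyMeasurable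
  rw [← integral_tsum hmeas (by rw [← hl]; exact hi.hasFiniteIntegral.ne)]
  unfold sy
  refine integral_congr_ae (Filter.Eventually.of_forall fun g => ?_)
  change v g * per Γ f g z = ∑' γ : Γ, v g * f (g⁻¹ • ((γ : SL(2, ℝ)) • z))
  rw [tsum_mul_left]
  congr 1
  unfold per
  obtain ⟨⟨n, hn⟩, -⟩ := hGPE Γ F f hΓ hF hf hfc
  rw [tsum_eq_finsum (hn g z).1]

theorem SCH_c2 (f e' : ℍ → ℂ) (hf : Continuous f) (he : Continuous e') :
    Continuous (fun p : ℍ × SL(2, ℝ) => e' p.1 * f (p.2⁻¹ • p.1)) := by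
  have hk : Continuous (fun p : ℍ × SL(2, ℝ) => p.2⁻¹ • p.1) := continuous_snd.inv.smul continuous_fst
  exact (he.comp continuous_fst).mul (hf.comp hk)

/-- integrability on the product -/
theorem SCH_int2 (hGLC : GLC_stmt) (hGMG : GMG_stmt) (f e' : ℍ → ℂ) (hf : Continuous f) (hfc : HasCompactSupport f)
    (he : Continuous e') (hec : HasCompactSupport e') :
    Integrable (fun p : ℍ × SL(2, ℝ) => e' p.1 * f (p.2⁻¹ • p.1)) ((volume : Measure ℍ).prod mG) := by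
  have := hGLC.2.1
  have := SCH_fc hGMG
  have := hGMG.2.2.1
  obtain ⟨C, hC, hCz⟩ := SCH_cpt hGLC (tsupport f) (tsupport e') hfc hec
  have hs : HasCompactSupport (fun p : ℍ × SL(2, ℝ) => e' p.1 * f (p.2⁻¹ • p.1)) := by
    refine HasCompactSupport.intro (IsCompact.prod hec hC) fun p hp => ?_
    by_contra h
    have h1 : e' p.1 ≠ 0 := left_ne_zero_of_mul h
    have h2 : f (p.2⁻¹ • p.1) ≠ 0 := right_ne_zero_of_mul h
    exact hp ⟨subset_tsupport e' h1, hCz p.2 p.1 (subset_tsupport e' h1) (subset_tsupport f h2)⟩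
  exact (SCH_c2 f e' hf he).integrable_of_hasCompactSupport hs

/-- the coefficient of the synthesis -/
theorem SCH_W (hGLC : GLC_stmt) (hGMG : GMG_stmt) (hGLI : GLI_stmt) (hGPE : GPE_stmt)
    (Γ : Subgroup SL(2, ℝ)) (F : Set ℍ) (hΓ : QU.SurfaceGroup Γ) (hF : QU.NiceDom Γ F)
    (f e' : ℍ → ℂ) (hf : Continuous f) (hfc : HasCompactSupport f) (he : Continuous e') (hec : HasCompactSupport e')
    (v : SL(2, ℝ) → ℂ) (hv : Measurable v) (m : ℝ)
    (hm : ∀ g, ‖v g‖ ≤ m) (hinv : ∀ (γ : Γ) g, v ((γ : SL(2, ℝ)) * g) = v g) (h : SL(2, ℝ)) :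
    Wf e' (sy Γ F f v) h = ∫ k, v (h * k) * (∫ z : ℍ, e' z * f (k⁻¹ • z)) ∂mG := by
  have := hGLC.2.1
  have := SCH_fc hGMG
  have := hGMG.2.2.1
  have : Measure.IsMulLeftInvariant mG := ⟨fun g => hGLI g⟩
  have hmul : Measurable (fun k : SL(2, ℝ) => h * k) := (continuous_const_mul h).measurable
  have h1 : ∀ z : ℍ, sy Γ F f v (h • z) = ∫ k, v (h * k) * f (k⁻¹ • z) ∂mG := by
    intro z
    rw [SCH_unfold hGLC hGMG hGLI hGPE Γ F hΓ hF f hf hfc v hv m hm hinv]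
    rw [← integral_mul_left_eq_self (fun g : SL(2, ℝ) => v g * f (g⁻¹ • (h • z))) h]
    refine integral_congr_ae (Filter.Eventually.of_forall fun k => ?_)
    change v (h * k) * f ((h * k)⁻¹ • (h • z)) = v (h * k) * f (k⁻¹ • z)
    rw [mul_inv_rev, mul_smul, inv_smul_smul]
  unfold Wf
  simp only [h1]
  have h2 : Integrable (Function.uncurry fun (z : ℍ) (k : SL(2, ℝ)) => e' z * (v (h * k) * f (k⁻¹ • z)))
      ((volume : Measure ℍ).prod mG) := by
    have a := (SCH_int2 hGLC hGMG f e' hf hfc he hec).bdd_mul (f := fun p : ℍ × SL(2, ℝ) => v (h * p.2)) (c := m)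
      ((hv.comp (hmul.comp measurable_snd)).aestronglyMeasurable) (Filter.Eventually.of_forall fun p => hm _)
    refine a.congr (Filter.Eventually.of_forall fun p => ?_)
    change v (h * p.2) * (e' p.1 * f (p.2⁻¹ • p.1)) = e' p.1 * (v (h * p.2) * f (p.2⁻¹ • p.1))
    ring
  have h3 : ∀ z : ℍ, e' z * ∫ k, v (h * k) * f (k⁻¹ • z) ∂mG = ∫ k, e' z * (v (h * k) * f (k⁻¹ • z)) ∂mG :=
    fun z => (integral_const_mul _ _).symm
  simp only [h3]
  rw [integral_integral_swap h2]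
  refine integral_congr_ae (Filter.Eventually.of_forall fun k => ?_)
  change ∫ z : ℍ, e' z * (v (h * k) * f (k⁻¹ • z)) = v (h * k) * ∫ z : ℍ, e' z * f (k⁻¹ • z)
  rw [← integral_const_mul]
  refine integral_congr_ae (Filter.Eventually.of_forall fun z => ?_)
  change e' z * (v (h * k) * f (k⁻¹ • z)) = v (h * k) * (e' z * f (k⁻¹ • z))
  ring

/-- Schur's test -/
theorem SCH_main (hGLC : GLC_stmt) (hGMG : GMG_stmt) (hGLI : GLI_stmt) (hGRI : GRI_stmt) (hGPE : GPE_stmt) : SCH_stmt := by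
  classical
  intro Γ F e e' v B D S1 S2 hΓ hF he hec he' hec' hv hvb hinv hB hD hDinv hsupp hS1 hS2 h1 h2
  obtain ⟨m, hm⟩ := hvb
  have := hGLC.2.1
  have := SCH_fc hGMG
  have := hGMG.2.2.1
  have hf : Continuous (fun z => conj (e z)) := Complex.continuous_conj.comp he
  have hfc : HasCompactSupport (fun z => conj (e z)) := hec.comp_left (map_zero _)
  have hdF : MeasurableSet (dG F) := (hGMG.1 F hF.meas).1
  have hfin : mG (dG F) < ⊤ := by
    rw [(hGMG.1 F hF.meas).2]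
    exact (QU.A_DOB Γ F hΓ hF).2.2.2.1
  set G : SL(2, ℝ) → ℂ := fun k => ∫ z : ℍ, e' z * conj (e (k⁻¹ • z)) with hG
  have hGm : Measurable G := by
    have a : StronglyMeasurable (Function.uncurry fun (z : ℍ) (k : SL(2, ℝ)) => e' z * conj (e (k⁻¹ • z))) :=
      (SCH_c2 _ e' hf he').stronglyMeasurable
    exact a.integral_prod_left.measurable
  set b : SL(2, ℝ) → ℝ≥0∞ := fun k => ENNReal.ofReal ‖G k‖ with hb
  set a : SL(2, ℝ) → ℝ≥0∞ := fun g => ENNReal.ofReal ‖v g‖ with ha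
  have hbm : Measurable b := hGm.norm.ennreal_ofReal
  have ham : Measurable a := hv.norm.ennreal_ofReal
  have hainv : ∀ (γ : Γ) g, a ((γ : SL(2, ℝ)) * g) = a g := fun γ g => by
    change ENNReal.ofReal ‖v ((γ : SL(2, ℝ)) * g)‖ = _
    rw [hinv]
  have hmulm : Measurable (fun p : SL(2, ℝ) × SL(2, ℝ) => p.1 * p.2) := (continuous_fst.mul continuous_snd).measurable
  have hdivm : Measurable (fun p : SL(2, ℝ) × SL(2, ℝ) => p.1 * p.2⁻¹) := (continuous_fst.mul continuous_snd.inv).measurable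
  -- pointwise
  have hpt : ∀ h : SL(2, ℝ), ENNReal.ofReal (‖Wf e' (sy Γ F (fun z => conj (e z)) v) h‖ ^ 2) ≤
      ENNReal.ofReal S1 * ∫⁻ k, a (h * k) ^ 2 * b k ∂mG := by
    intro h
    have hmul : Measurable (fun k : SL(2, ℝ) => h * k) := (continuous_const_mul h).measurable
    rw [SCH_W hGLC hGMG hGLI hGPE Γ F hΓ hF _ e' hf hfc he' hec' v hv m hm hinv h, ENNReal.ofReal_pow (norm_nonneg _)]
    have c1 : ENNReal.ofReal ‖∫ k, v (h * k) * (∫ z : ℍ, e' z * conj (e (k⁻¹ • z))) ∂mG‖ ≤ ∫⁻ k, a (h * k) * b k ∂mG := by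
      rw [ofReal_norm]
      refine (enorm_integral_le_lintegral_enorm _).trans (le_of_eq ?_)
      refine lintegral_congr fun k => ?_
      change ‖v (h * k) * G k‖ₑ = ENNReal.ofReal ‖v (h * k)‖ * ENNReal.ofReal ‖G k‖
      rw [enorm_mul, ofReal_norm, ofReal_norm]
    have c2 := SCH_cs mG (a := fun k => a (h * k)) (b := b) (hmul hB) (ham.comp hmul) hbm (by
      intro k hk
      refine hsupp (h * k) fun hv0 => hk ?_
      change ENNReal.ofReal ‖v (h * k)‖ = 0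
      rw [hv0, norm_zero, ENNReal.ofReal_zero])
    calc ENNReal.ofReal ‖∫ k, v (h * k) * (∫ z : ℍ, e' z * conj (e (k⁻¹ • z))) ∂mG‖ ^ 2
        ≤ (∫⁻ k, a (h * k) * b k ∂mG) ^ 2 := by gcongr
      _ ≤ (∫⁻ k in {k | h * k ∈ B}, b k ∂mG) * ∫⁻ k, a (h * k) ^ 2 * b k ∂mG := c2
      _ ≤ ENNReal.ofReal S1 * ∫⁻ k, a (h * k) ^ 2 * b k ∂mG := by
        gcongr
        exact h1 h
  -- integrate
  have hQ : ∫⁻ h in dG F ∩ D, (∫⁻ k, a (h * k) ^ 2 * b k ∂mG) ∂mG ≤ ENNReal.ofReal S2 * ∫⁻ g in dG F, a g ^ 2 ∂mG := by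
    have q1 : AEMeasurable (Function.uncurry fun (h k : SL(2, ℝ)) => a (h * k) ^ 2 * b k) ((mG.restrict (dG F ∩ D)).prod mG) :=
      (((ham.comp hmulm).pow_const 2).mul (hbm.comp measurable_snd)).aemeasurable
    rw [lintegral_lintegral_swap q1]
    have q2 : ∀ k : SL(2, ℝ), ∫⁻ h in dG F ∩ D, a (h * k) ^ 2 * b k ∂mG =
        ∫⁻ g in dG F, (D.indicator 1 (g * k⁻¹) * a g ^ 2) * b k ∂mG := by
      intro k
      have r1 := SCH_right hGLC hGMG hGLI hGRI Γ F hΓ hF (fun g => (D.indicator (1 : SL(2, ℝ) → ℝ≥0∞) (g * k⁻¹) * a g ^ 2) * b k) k (by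
        intro γ g
        have r2 : D.indicator (1 : SL(2, ℝ) → ℝ≥0∞) ((γ : SL(2, ℝ)) * g * k⁻¹) = D.indicator 1 (g * k⁻¹) := by
          rw [mul_assoc]
          by_cases hx : g * k⁻¹ ∈ D
          · rw [Set.indicator_of_mem hx, Set.indicator_of_mem ((hDinv γ _).2 hx)]
            rfl
          · rw [Set.indicator_of_notMem hx, Set.indicator_of_notMem (fun hy => hx ((hDinv γ _).1 hy))]
        simp only [r2, hainv])
      rw [← r1, Set.inter_comm, ← Measure.restrict_restrict hD, ← lintegral_indicator hD]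
      refine lintegral_congr fun g => ?_
      rw [mul_inv_cancel_right]
      by_cases hx : g ∈ D
      · rw [Set.indicator_of_mem hx, Set.indicator_of_mem hx]
        simp
      · rw [Set.indicator_of_notMem hx, Set.indicator_of_notMem hx]
        simp
    simp only [q2]
    have hIm : Measurable (D.indicator (1 : SL(2, ℝ) → ℝ≥0∞)) := measurable_one.indicator hD
    have q3 : AEMeasurable (Function.uncurry fun (k g : SL(2, ℝ)) => (D.indicator (1 : SL(2, ℝ) → ℝ≥0∞) (g * k⁻¹) * a g ^ 2) * b k)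
        (mG.prod (mG.restrict (dG F))) :=
      ((((hIm.comp (hdivm.comp measurable_swap))).mul ((ham.comp measurable_snd).pow_const 2)).mul
        (hbm.comp measurable_fst)).aemeasurable
    rw [lintegral_lintegral_swap q3, ← lintegral_const_mul _ (ham.pow_const 2)]
    refine lintegral_mono fun g => ?_
    have hg : MeasurableSet {k : SL(2, ℝ) | g * k⁻¹ ∈ D} :=
      ((continuous_const.mul continuous_inv).measurable : Measurable fun k : SL(2, ℝ) => g * k⁻¹) hD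
    have q4 : ∫⁻ k, (D.indicator (1 : SL(2, ℝ) → ℝ≥0∞) (g * k⁻¹) * a g ^ 2) * b k ∂mG =
        a g ^ 2 * ∫⁻ k in {k | g * k⁻¹ ∈ D}, b k ∂mG := by
      rw [← lintegral_indicator hg, ← lintegral_const_mul _ (hbm.indicator hg)]
      refine lintegral_congr fun k => ?_
      by_cases hx : g * k⁻¹ ∈ D
      · have hx' : k ∈ {k : SL(2, ℝ) | g * k⁻¹ ∈ D} := hx
        rw [Set.indicator_of_mem hx, Set.indicator_of_mem hx']
        simp
      · have hx' : k ∉ {k : SL(2, ℝ) | g * k⁻¹ ∈ D} := hx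
        rw [Set.indicator_of_notMem hx, Set.indicator_of_notMem hx']
        simp
    change ∫⁻ k, (D.indicator (1 : SL(2, ℝ) → ℝ≥0∞) (g * k⁻¹) * a g ^ 2) * b k ∂mG ≤ ENNReal.ofReal S2 * a g ^ 2
    rw [q4, mul_comm]
    gcongr
    exact h2 g
  -- back to real integrals
  have hR0 : 0 ≤ iR F (fun g => ‖v g‖ ^ 2) := integral_nonneg fun g => by positivity
  by_cases hI : Integrable (fun h => ‖Wf e' (sy Γ F (fun z => conj (e z)) v) h‖ ^ 2) (mG.restrict (dG F ∩ D))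
  · have hvi : Integrable (fun g => ‖v g‖ ^ 2) (mG.restrict (dG F)) := by
      have : IsFiniteMeasure (mG.restrict (dG F)) := ⟨by rw [Measure.restrict_apply_univ]; exact hfin⟩
      refine Integrable.of_bound (hv.norm.pow_const 2).aestronglyMeasurable (m ^ 2) (Filter.Eventually.of_forall fun g => ?_)
      rw [Real.norm_eq_abs, abs_of_nonneg (by positivity)]
      exact pow_le_pow_left₀ (norm_nonneg _) (hm g) 2
    have e1 := ofReal_integral_eq_lintegral_ofReal hI (Filter.Eventually.of_forall fun h => by positivity)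
    have e2 := ofReal_integral_eq_lintegral_ofReal hvi (Filter.Eventually.of_forall fun h => by positivity)
    have e3 : ENNReal.ofReal (∫ h in dG F ∩ D, ‖Wf e' (sy Γ F (fun z => conj (e z)) v) h‖ ^ 2 ∂mG) ≤
        ENNReal.ofReal (S1 * S2 * iR F (fun g => ‖v g‖ ^ 2)) := by
      rw [e1, ENNReal.ofReal_mul (mul_nonneg hS1 hS2), ENNReal.ofReal_mul hS1]
      have e4 : ENNReal.ofReal (iR F (fun g => ‖v g‖ ^ 2)) = ∫⁻ g in dG F, a g ^ 2 ∂mG := by
        unfold iR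
        rw [e2]
        refine lintegral_congr fun g => ?_
        rw [ENNReal.ofReal_pow (norm_nonneg _)]
      rw [e4, mul_assoc]
      calc ∫⁻ h in dG F ∩ D, ENNReal.ofReal (‖Wf e' (sy Γ F (fun z => conj (e z)) v) h‖ ^ 2) ∂mG
          ≤ ∫⁻ h in dG F ∩ D, ENNReal.ofReal S1 * (∫⁻ k, a (h * k) ^ 2 * b k ∂mG) ∂mG := lintegral_mono fun h => hpt h
        _ = ENNReal.ofReal S1 * ∫⁻ h in dG F ∩ D, (∫⁻ k, a (h * k) ^ 2 * b k ∂mG) ∂mG := by
          refine lintegral_const_mul _ ?_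
          exact Measurable.lintegral_prod_right (((ham.comp hmulm).pow_const 2).mul (hbm.comp measurable_snd))
        _ ≤ ENNReal.ofReal S1 * (ENNReal.ofReal S2 * ∫⁻ g in dG F, a g ^ 2 ∂mG) := by gcongr
    exact (ENNReal.ofReal_le_ofReal_iff (mul_nonneg (mul_nonneg hS1 hS2) hR0)).1 e3
  · rw [integral_undef hI]
    exact mul_nonneg (mul_nonneg hS1 hS2) hR0

theorem SCH_proof : SCH_stmt := SCH_main A_GLC A_GMG A_GLI A_GRI A_GPE

end Pool.Agent.MS
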