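import Pool.Agent.helper57.MS.Spec2

/-!
# Project ms (MP_b48e27_co), module RES: fixing the coordinates outside `S`
-/

set_option autoImplicit false

open Finset

namespace Pool.Agent.helper57.MS

lemma RES_aux {K : Type} [Field K] {Ω : Type} [DecidableEq Ω] {Q : Ω → Type}
    (F : FSys K Ω Q) (S' : Finset Ω) (q : (ω : Ω) → Q ω) (f : ((ω : Ω) → Q ω) → K) (hf : f ∈ F.E S')
    (T : Finset Ω) : (fun x : (ω : Ω) → Q ω => f (fun ω => if ω ∈ T then q ω else x ω)) ∈ F.E (S' \ T) := by
  induction T using Finset.induction_on with
  | empty => simpa using hf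
  | insert w T hw ih =>
    have h := F.ev_mem (S' \ T) _ ih w (q w)
    have hs : (S' \ T).erase w = S' \ insert w T := by
      ext a
      simp only [Finset.mem_erase, Finset.mem_sdiff, Finset.mem_insert]
      tauto
    rw [hs] at h
    have he : ev w (q w) (fun x : (ω : Ω) → Q ω => f (fun ω => if ω ∈ T then q ω else x ω)) =
        fun x : (ω : Ω) → Q ω => f (fun ω => if ω ∈ insert w T then q ω else x ω) := by
      funext x
      show f (fun ω => if ω ∈ T then q ω else Function.update x w (q w) ω) = _
      congr 1
      funext ω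
      by_cases h1 : ω ∈ T
      · rw [if_pos h1, if_pos (Finset.mem_insert_of_mem h1)]
      · rw [if_neg h1]
        by_cases h2 : ω = w
        · subst h2
          rw [Function.update_self, if_pos (Finset.mem_insert_self _ _)]
        · rw [Function.update_of_ne h2, if_neg]
          intro h3
          rcases Finset.mem_insert.1 h3 with h4 | h4
          · exact h2 h4
          · exact h1 h4
    rw [he] at h
    exact h

theorem RES : RES_stmt := by
  intro K _ Ω _ Q F S S' q f hf
  have h := RES_aux F S' q f hf (S' \ S)
  have hs : S' \ (S' \ S) = S' ∩ S := by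
    ext a
    simp only [Finset.mem_sdiff, Finset.mem_inter]
    tauto
  rw [hs] at h
  have he : res S q f = fun x : (ω : Ω) → Q ω => f (fun ω => if ω ∈ S' \ S then q ω else x ω) := by
    funext x
    show f (fun ω => if ω ∈ S then x ω else q ω) = _
    refine F.dep S' f hf ?_
    intro ω hω
    have hω' : ω ∈ S' := hω
    show (if ω ∈ S then x ω else q ω) = if ω ∈ S' \ S then q ω else x ω
    by_cases h1 : ω ∈ S
    · rw [if_pos h1, if_neg]
      intro h2
      exact (Finset.mem_sdiff.1 h2).2 h1
    · rw [if_neg h1, if_pos (Finset.mem_sdiff.2 ⟨hω', h1⟩)]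
  rw [he]
  exact h

end Pool.Agent.helper57.MS
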