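import Pool.Agent.helper57.MS.Spec

set_option autoImplicit false

open Finset

namespace Pool.Agent.helper57.MS

open Pool.Agent.RRank Pool.Agent.helper26.IM

theorem STEP (hST0 : ST0_stmt) (hST1 : ST1_stmt) (hST2 : ST2_stmt) : STEP_stmt := by
  intro K _ d l Q G S A s₀ κ _ J b r hJ hb hr hInd hH k₀ heven
  have h1 : ∀ m : ℕ, m ≤ l → Gm l m A (J k₀) s₀ (∑ k, b k * r k) (r k₀) = 0 := by
    intro m
    induction m with
    | zero =>
      intro _
      rw [hST0]
      exact hH
    | succ m ih =>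
      intro hm
      exact hST1 K d l Q G S A s₀ κ J b r hJ hb hr hInd k₀ m (by omega) (ih (by omega))
  refine hST2 K d l Q A (J k₀) s₀ (∑ k, b k * r k) (r k₀) (hJ k₀).1 heven ?_ (h1 l le_rfl)
  have h2 := G.F.dep _ _ (hr k₀)
  intro x y hxy
  refine h2 fun i hi => hxy i ?_
  rw [Finset.mem_coe, Finset.mem_sdiff] at hi
  rw [Finset.mem_coe, Finset.mem_compl]
  exact hi.2

end Pool.Agent.helper57.MS
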